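import Pool.Agent.Helper90.MZ.StmtsC

/-!
# MP_79eb7e_lc: module BLK
-/

set_option autoImplicit false

namespace Pool.Agent.Helper90.MZ

open Pool.Agent.Helper90.TS

section
variable {V G : Type} [Group G] [MulAction G V]

/-- two sets over `b`, one over `H0`, one over `H1`, can be made independent -/
theorem blk_amalg {X : Ctx V G} {b H0 H1 g g' : Set V} (hH0 : H0.Countable) (hH1 : H1.Countable)
    (hg : g.Countable) (hg' : g'.Countable) (hb0 : b ⊆ H0) (hb1 : b ⊆ H1) (h : SI X b H0 H1) :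
    ∃ τ ∈ Fx G H0, ∃ ρ ∈ Fx G H1, SI X b (tr τ g) (tr ρ g') := by
  have hb : b.Countable := hH0.mono hb0
  obtain ⟨τ, hτ, h1⟩ := si_ex (X := X) hH0 hg hH1
  have hτg : (tr τ g).Countable := tr_countable τ hg
  have h2 : SI X b (H0 ∪ tr τ g) H1 := by
    refine si_transl hb hH0 hH1 hτg h ?_
    rwa [Set.union_eq_self_of_subset_left hb0]
  have h3 : SI X b H1 (H0 ∪ tr τ g) := si_symm hb (hH0.union hτg) hH1 h2
  obtain ⟨ρ, hρ, h4⟩ := si_ex (X := X) hH1 hg' (hH0.union hτg)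
  have hρg : (tr ρ g').Countable := tr_countable ρ hg'
  have h5 : SI X b (H1 ∪ tr ρ g') (H0 ∪ tr τ g) := by
    refine si_transl hb hH1 (hH0.union hτg) hρg h3 ?_
    rwa [Set.union_eq_self_of_subset_left hb1]
  have h6 : SI X b (tr ρ g') (H0 ∪ tr τ g) := si_left Set.subset_union_right h5
  have h7 : SI X b (tr ρ g') (tr τ g) :=
    si_right hb hρg (hH0.union hτg) Set.subset_union_right h6
  exact ⟨τ, hτ, ρ, hρ, si_symm hb hρg hτg h7⟩

/-- classes fixed by `τ` -/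
theorem blk_move (h4 : ST_NOEQ) (h5 : ST_INVA) {X : Ctx V G} {q E C : Ty V} {τ : G}
    (hq : SR X q) (hE : SR X E) (hC : SR X C) (hτ : τ ∈ Fx G C.A) (h1 : NO X q E)
    (h2 : NO X E C) : SR X (mv τ q) ∧ NO X (mv τ q) E := by
  obtain ⟨a1, a2, a3⟩ := h4 V G X
  obtain ⟨-, -, i3, i4, -, -, -, -, -, -, -, i12⟩ := h5 V G X τ
  have hmq : SR X (mv τ q) := i3 q hq
  have hmC : SR X (mv τ C) := i3 C hC
  have e1 : NO X q C := a3 q E C hq hE hC h1 h2
  have e2 : NO X (mv τ q) (mv τ C) := i4 q C e1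
  have e3 : NO X (mv τ C) C := (i12 C hC hτ).2.2.2
  have e4 : NO X (mv τ q) C := a3 _ _ _ hmq hmC hC e2 e3
  exact ⟨hmq, a3 _ _ _ hmq hC hE e4 (a2 _ _ h2)⟩

end

theorem st_BLK (h1 : ST_CT) (h2 : ST_ORT) (h3 : ST_IND) (h4 : ST_NOEQ) (h5 : ST_INVA)
    (_ : ST_MDLB) : ST_BLK := by
  intro V G _ _ X b m C h x hb hC hInd
  have hbc : b.Countable := hb.countable
  have hhc : ∀ n, (h n).Countable := fun n => (hC n).2.1.countable
  have hSR : ∀ n j, SR X (C n j) := fun n j => ((hC n).1.1 j).1.1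
  have hFin : ∀ n j, (C n j).A.Finite := fun n j => ((hC n).1.1 j).1.2.1
  have hnS : ∀ n j, ¬ Sup X b (C n j) := fun n j => ((hC n).1.1 j).2
  set A0 : Set V := b ∪ ⋃ n ∈ {n | x n = true}, h n with hA0
  have hA0c : A0.Countable := hbc.union (Set.Countable.biUnion (Set.to_countable _) fun n _ => hhc n)
  have hhA0 : ∀ n, x n = true → h n ⊆ A0 := by
    intro n hn y hy
    exact Or.inr (Set.mem_biUnion (show n ∈ {n | x n = true} from hn) hy)
  -- the complementary sets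
  have hYc : ∀ n, (⋃ k ∈ {k | x k = true ∧ k ≠ n}, h k).Countable := fun n =>
    Set.Countable.biUnion (Set.to_countable _) fun k _ => hhc k
  have hindY : ∀ n, SI X b (h n) (⋃ k ∈ {k | x k = true ∧ k ≠ n}, h k) := by
    intro n
    have e := hInd {n} {k | x k = true ∧ k ≠ n} (by
      rw [Set.disjoint_left]
      intro a ha hb'
      rw [Set.mem_singleton_iff] at ha
      exact hb'.2 ha)
    simpa using e
  have hreal : ∀ n, x n = true → ∀ j y, Rl X (C n j) (h n) y → Rl X (C n j) A0 y := by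
    intro n hn j y hy
    have e := h2 V G X b (h n) (⋃ k ∈ {k | x k = true ∧ k ≠ n}, h k) (C n j) y (hSR n j)
      (hC n).2.2.1 ((hC n).2.2.2 j).1 (hhc n) (hnS n j) (hYc n)
      (si_symm hbc (hhc n) (hYc n) (hindY n)) hy
    have e2 : h n ∪ (⋃ k ∈ {k | x k = true ∧ k ≠ n}, h k) = A0 := by
      rw [hA0]
      ext z
      simp only [Set.mem_union, Set.mem_iUnion, Set.mem_ofPred_eq, exists_prop]
      constructor
      · rintro (hz | ⟨k, hk, hz⟩)
        · exact Or.inr ⟨n, hn, hz⟩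
        · exact Or.inr ⟨k, hk.1, hz⟩
      · rintro (hz | ⟨k, hk, hz⟩)
        · exact Or.inl ((hC n).2.2.1 hz)
        · rcases eq_or_ne k n with rfl | hkn
          · exact Or.inl hz
          · exact Or.inr ⟨k, ⟨hk, hkn⟩, hz⟩
    rwa [e2] at e
  obtain ⟨N, hN, hAN, hOm, hbd⟩ := h1 V G X (Σ n : {n // x n = true}, Fin (m n))
    (fun i => C i.1 i.2) (fun i => h i.1) A0 hA0c (fun i =>
      ⟨hSR _ _, ((hC i.1).2.2.2 i.2).1, hhA0 i.1 i.1.2, ((hC i.1).2.2.2 i.2).2,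
        hreal i.1 i.1.2 i.2⟩)
  have hbound : ∀ r : Ty V, ENI X r → r.A ⊆ N → Bd X r N →
      ∃ n, x n = true ∧ ∃ j, NO X r (C n j) := by
    intro r hr hrN hrb
    by_contra hcon
    refine hbd r hr.1 hr.2.1 hrN ?_ hrb
    intro i hi
    exact hcon ⟨i.1, i.1.2, i.2, hi⟩
  refine ⟨N, hN, Set.subset_union_left.trans hAN, ?_, hbound, ?_⟩
  · intro n hn
    refine ⟨(hhA0 n hn).trans hAN, fun j => ⟨h n, (hC n).2.1, (hhA0 n hn).trans hAN, ?_⟩⟩
    exact hOm ⟨⟨n, hn⟩, j⟩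
  · intro k E hE hEb hEi hk
    have hESR : ∀ i, SR X (E i) := fun i => (hE.1 i).1.1
    have hcl : ∀ i, ∃ n, x n = true ∧ ∃ j, NO X (E i) (C n j) := fun i =>
      hbound (E i) (hE.1 i).1 (hEb i).1 (hEb i).2
    obtain ⟨n0, hn0, hj0⟩ := hcl ⟨0, hk⟩
    refine ⟨n0, hn0, ?_⟩
    by_contra hall
    rw [not_forall] at hall
    obtain ⟨i1, hi1⟩ := hall
    obtain ⟨J1, J2, hJ1, hJ2, hq1, hq2, hnot⟩ := hEi {i | ∃ j, NO X (E i) (C n0 j)}
      ⟨⟨0, hk⟩, hj0⟩ ⟨i1, hi1⟩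
    obtain ⟨q, hq, hqI⟩ := hq1
    obtain ⟨q', hq', hqI'⟩ := hq2
    refine hnot ?_
    obtain ⟨a1, a2, a3⟩ := h4 V G X
    -- the two halves
    set H0 : Set V := h n0 with hH0
    set H1 : Set V := b ∪ ⋃ k ∈ {k | x k = true ∧ k ≠ n0}, h k with hH1
    have hH1c : H1.Countable := hbc.union (hYc n0)
    have hbH0 : b ⊆ H0 := (hC n0).2.2.1
    have hbH1 : b ⊆ H1 := Set.subset_union_left
    have hSI : SI X b H0 H1 := (si_add_base hbc (hhc n0) (hYc n0)).2 (hindY n0)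
    have hgc : ∀ i ∈ J1, ((q i).A).Countable := fun i hi => (hq i hi).2.1.countable
    have hgc' : ∀ i ∈ J2, ((q' i).A).Countable := fun i hi => (hq' i hi).2.1.countable
    have hUc : (⋃ i : J1, (q i).A).Countable := Set.countable_iUnion fun i => hgc i i.2
    have hUc' : (⋃ i : J2, (q' i).A).Countable := Set.countable_iUnion fun i => hgc' i i.2
    obtain ⟨τ, hτ, ρ, hρ, hτρ⟩ := blk_amalg (X := X) (hhc n0) hH1c hUc hUc' hbH0 hbH1 hSI
    have hτb : τ ∈ Fx G b := fx_anti hbH0 hτ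
    have hρb : ρ ∈ Fx G b := fx_anti hbH1 hρ
    -- the new representatives
    have hm1 : ∀ i ∈ J1, SR X (mv τ (q i)) ∧ NO X (mv τ (q i)) (E i) := by
      intro i hi
      obtain ⟨j, hj⟩ := hJ1 hi
      exact blk_move h4 h5 (hq i hi).1 (hESR i) (hSR n0 j)
        (fx_anti ((hC n0).2.2.2 j).1 hτ) (hq i hi).2.2 hj
    have hm2 : ∀ i ∈ J2, SR X (mv ρ (q' i)) ∧ NO X (mv ρ (q' i)) (E i) := by
      intro i hi
      obtain ⟨n, hn, j, hj⟩ := hcl i
      have hne : n ≠ n0 := by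
        rintro rfl
        exact hJ2 hi ⟨j, hj⟩
      have hsub : (C n j).A ⊆ H1 := by
        refine ((hC n).2.2.2 j).1.trans ?_
        intro z hz
        exact Or.inr (Set.mem_biUnion (show n ∈ {k | x k = true ∧ k ≠ n0} from ⟨hn, hne⟩) hz)
      exact blk_move h4 h5 (hq' i hi).1 (hESR i) (hSR n j)
        (fx_anti hsub hρ) (hq' i hi).2.2 hj
    obtain ⟨-, -, d3, -, -, -, d7, d8, -⟩ := h3 V G X b hbc
    have hI1 : Ind X b (fun i : J1 => tr τ (q i).A) := by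
      have e := d7 J1 (fun i : J1 => (q i).A) τ (fun i => hgc i i.2) hqI
      rwa [tr_fx hτb] at e
    have hI2 : Ind X b (fun i : J2 => tr ρ (q' i).A) := by
      have e := d7 J2 (fun i : J2 => (q' i).A) ρ (fun i => hgc' i i.2) hqI'
      rwa [tr_fx hρb] at e
    have hI : Ind X b (Sum.elim (fun i : J1 => tr τ (q i).A) (fun i : J2 => tr ρ (q' i).A)) := by
      refine d8 J1 J2 _ _ (fun i => tr_countable τ (hgc i i.2))
        (fun i => tr_countable ρ (hgc' i i.2)) hI1 hI2 ?_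
      rwa [← tr_iUnion, ← tr_iUnion]
    classical
    have hdis : ∀ i ∈ J1, i ∉ J2 := fun i hi hi2 => hJ2 hi2 (hJ1 hi)
    refine ⟨fun i => if i ∈ J1 then mv τ (q i) else mv ρ (q' i), ?_, ?_⟩
    · intro i hi
      by_cases hi1 : i ∈ J1
      · simp only [hi1, if_true]
        exact ⟨(hm1 i hi1).1, tr_finite τ (hq i hi1).2.1, (hm1 i hi1).2⟩
      · have hi2 : i ∈ J2 := hi.resolve_left hi1
        simp only [hi1, if_false]
        exact ⟨(hm2 i hi2).1, tr_finite ρ (hq' i hi2).2.1, (hm2 i hi2).2⟩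
    · have e := d3 (J1 ⊕ J2) (J1 ∪ J2 : Set (Fin k)) _
        (fun i : (J1 ∪ J2 : Set (Fin k)) => if hi : (i : Fin k) ∈ J1 then
          (Sum.inl ⟨i, hi⟩ : J1 ⊕ J2) else Sum.inr ⟨i, i.2.resolve_left hi⟩) (by
          rintro ⟨i, hi⟩ ⟨j, hj⟩ hij
          simp only at hij
          by_cases hi1 : i ∈ J1 <;> by_cases hj1 : j ∈ J1 <;> simp_all) hI
      have e2 : (fun i : (J1 ∪ J2 : Set (Fin k)) =>
          (if (i : Fin k) ∈ J1 then mv τ (q i) else mv ρ (q' i)).A) =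
          fun i : (J1 ∪ J2 : Set (Fin k)) => Sum.elim (fun i : J1 => tr τ (q i).A)
            (fun i : J2 => tr ρ (q' i).A) (if hi : (i : Fin k) ∈ J1 then
          (Sum.inl ⟨i, hi⟩ : J1 ⊕ J2) else Sum.inr ⟨i, i.2.resolve_left hi⟩) := by
        funext i
        by_cases hi1 : (i : Fin k) ∈ J1
        · simp only [hi1, if_true, dif_pos, Sum.elim_inl]
          rfl
        · simp only [hi1, if_false, dif_neg, not_false_eq_true, Sum.elim_inr]
          rfl
      rw [e2]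
      exact e

end Pool.Agent.Helper90.MZ
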