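import Pool.Agent.Helper90.MZ.StmtsZ

/-!
# MP_79eb7e_lc: module ZCA (the active types)
-/

set_option autoImplicit false

namespace Pool.Agent.Helper90.MZ

open Pool.Agent.Helper90.TS

/-- a finite set of pairwise unrelated representatives, if there is no infinite one -/
theorem zca_fin {α : Type} (P : α → Prop) (r : α → α → Prop) (hrefl : ∀ x, P x → r x x)
    (hsymm : ∀ x y, r x y → r y x)
    (htrans : ∀ x y z, P x → P y → P z → r x y → r y z → r x z)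
    (h : ¬ ∃ C : ℕ → α, (∀ n, P (C n)) ∧ ∀ m n, m ≠ n → ¬ r (C m) (C n)) :
    ∃ (s : ℕ) (t : Fin s → α), (∀ l, P (t l)) ∧ (∀ l l', l ≠ l' → ¬ r (t l) (t l')) ∧
      ∀ p, P p → ∃ l, r p (t l) := by
  classical
  have hex : ∃ s : Finset α, (∀ x ∈ s, P x) ∧ ∀ y, P y → ∃ x ∈ s, r x y := by
    by_contra hcon
    apply h
    have : Std.Symm (fun x y => ¬ r x y) := ⟨fun x y hxy hyx => hxy (hsymm _ _ hyx)⟩
    obtain ⟨f, hf, hf2⟩ := exists_seq_of_forall_finset_exists' P (fun x y => ¬ r x y) (by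
      intro s hs
      by_contra hc
      apply hcon
      refine ⟨s, hs, fun y hy => ?_⟩
      by_contra hc2
      apply hc
      refine ⟨y, hy, fun x hx hxy => hc2 ⟨x, hx, hxy⟩⟩)
    exact ⟨f, hf, fun m n hmn => hf2 hmn⟩
  have hex2 : ∃ n : ℕ, ∃ s : Finset α, s.card = n ∧ (∀ x ∈ s, P x) ∧ ∀ y, P y → ∃ x ∈ s, r x y := by
    obtain ⟨s, hs⟩ := hex
    exact ⟨_, s, rfl, hs⟩
  obtain ⟨s, hcard, hsP, hs⟩ := Nat.find_spec hex2
  have hmin : ∀ x ∈ s, ∀ y ∈ s, x ≠ y → ¬ r x y := by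
    intro x hx y hy hxy hr
    have hlt : (s.erase y).card < Nat.find hex2 := by
      rw [← hcard]
      exact Finset.card_erase_lt_of_mem hy
    refine Nat.find_min hex2 hlt ⟨s.erase y, rfl, fun z hz => hsP z (Finset.mem_of_mem_erase hz), ?_⟩
    intro w hw
    obtain ⟨z, hz, hzw⟩ := hs w hw
    rcases eq_or_ne z y with rfl | hzy
    · exact ⟨x, Finset.mem_erase.2 ⟨hxy, hx⟩, htrans _ _ _ (hsP x hx) (hsP z hy) hw hr hzw⟩
    · exact ⟨z, Finset.mem_erase.2 ⟨hzy, hz⟩, hzw⟩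
  refine ⟨s.card, fun l => (s.equivFin.symm l : α), fun l => hsP _ (s.equivFin.symm l).2, ?_, ?_⟩
  · intro l l' hl
    refine hmin _ (s.equivFin.symm l).2 _ (s.equivFin.symm l').2 ?_
    intro he
    exact hl (s.equivFin.symm.injective (Subtype.ext he))
  · intro p hp
    obtain ⟨x, hx, hxp⟩ := hs p hp
    refine ⟨s.equivFin ⟨x, hx⟩, ?_⟩
    have e : s.equivFin.symm (s.equivFin ⟨x, hx⟩) = ⟨x, hx⟩ := Equiv.symm_apply_apply _ _
    simp only [e]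
    exact hsymm _ _ hxp

theorem st_ZCA (h1 : ST_ACF) (h2 : ST_NN) (h3 : ST_ACI) (h4 : ST_SUPU) (h5 : ST_NOEQ) :
    ST_ZCA := by
  intro V G _ _ X Q hFew hQ
  obtain ⟨n1, n2, n3⟩ := h5 V G X
  obtain ⟨s, t', ht', hno, hall⟩ := zca_fin (fun p : Ty V => SR X p ∧ Act X p)
    (fun p q => NO X p q) (fun x hx => n1 x hx.1) (fun x y => n2 x y)
    (fun x y z hx hy hz => n3 x y z hx.1 hy.1 hz.1) (h1 V G X hFew)
  obtain ⟨-, -, -, -, -, u6, -, -⟩ := h4 V G X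
  have hsp : ∀ l, ∃ p, SR X p ∧ p.A ⊆ Q ∧ p.A.Finite ∧ NO X p (t' l) ∧ NO X (t' l) p := fun l =>
    u6 Q (t' l) (ht' l).1 (h2 V G X (t' l) hFew (ht' l).1 (ht' l).2 Q hQ (Set.empty_subset _))
  choose t ht using hsp
  refine ⟨⋃ l, (t l).A, s, t, Set.finite_iUnion fun l => (ht l).2.2.1,
    Set.iUnion_subset fun l => (ht l).2.1, fun l => ⟨(ht l).1, Set.subset_iUnion (fun l => (t l).A) l,
      (h3 V G X (t' l) (ht' l).1 (ht' l).2).1 (t l) (ht l).1 (ht l).2.2.2.2⟩, ?_, ?_⟩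
  · intro l l' hl hn
    refine hno l l' hl ?_
    exact n3 _ _ _ (ht' l).1 (ht l).1 (ht' l').1 (ht l).2.2.2.2
      (n3 _ _ _ (ht l).1 (ht l').1 (ht' l').1 hn (ht l').2.2.2.1)
  · intro p hp ha
    obtain ⟨l, hl⟩ := hall p ⟨hp, ha⟩
    exact ⟨l, n3 _ _ _ hp (ht' l).1 (ht l).1 hl (ht l).2.2.2.2⟩

end Pool.Agent.Helper90.MZ
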