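import Pool.Agent.Helper90.MZ.StmtsZ

/-!
# MP_79eb7e_lc: module ZZ (Theorem Z)
-/

set_option autoImplicit false

namespace Pool.Agent.Helper90.MZ

open Pool.Agent.Helper90.TS

section
variable {V G : Type} [Group G] [MulAction G V]

theorem zz_small {d d' : ℕ → V} (h : Small G d) (h1 : SqEq G (∅ : Set V) d d') : Small G d' := by
  obtain ⟨σ, hσ, hσd⟩ := h1
  intro A hA
  obtain ⟨T, hT⟩ := h A hA
  refine ⟨T, fun d0 d1 h0 h1 => hT d0 d1 ?_ ?_⟩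
  · obtain ⟨τ, hτ, hτd⟩ := h0
    exact ⟨τ * σ, fun x hx => absurd hx (Set.notMem_empty x), fun i => by
      rw [mul_smul, hσd, hτd]⟩
  · obtain ⟨τ, hτ, hτd⟩ := h1
    exact ⟨τ * σ, fun x hx => absurd hx (Set.notMem_empty x), fun i => by
      rw [mul_smul, hσd, hτd]⟩

theorem zz_tr_union (g : G) (A B : Set V) : tr g (A ∪ B) = tr g A ∪ tr g B :=
  Set.image_union _ _ _

theorem zz_tr_range (g : G) (d d' : ℕ → V) (h : ∀ i, g • d i = d' i) :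
    tr g (Set.range d) = Set.range d' := by
  ext x
  constructor
  · rintro ⟨_, ⟨i, rfl⟩, rfl⟩
    exact ⟨i, (h i).symm⟩
  · rintro ⟨i, rfl⟩
    exact ⟨d i, ⟨i, rfl⟩, h i⟩

theorem zz_tr_congr {g h : G} {A : Set V} (H : ∀ x ∈ A, h • x = g • x) : tr h A = tr g A := by
  ext x
  constructor
  · rintro ⟨y, hy, rfl⟩
    exact ⟨y, hy, (H y hy).symm⟩
  · rintro ⟨y, hy, rfl⟩
    exact ⟨y, hy, H y hy⟩

end

theorem st_ZZ (h1 : ST_ZCH) (h2 : ST_ZBE) (h3 : ST_ZBI) (h4 : ST_ZX) (h5 : ST_ZDM) (h6 : ST_ZSB)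
    (h7 : ST_ZQ) (h8 : ST_LOB) (h9 : ST_PRIM) (h10 : ST_PUNI) (h11 : ST_INVA) (_ : ST_INVB)
    (h13 : ST_NOEQ) (_ : ST_MDLB) (_ : ST_ISLB) : ST_ZZ := by
  intro V G _ _ X Q d hFew hQ hdQ hSm
  obtain ⟨a, s, t, hZS⟩ := h1 V G X Q d hFew hQ hdQ hSm
  obtain ⟨κ, hκ, l, z, c, hWQ⟩ := h2 V G X Q a d s t hZS
  refine ⟨a, hZS.aQ, hZS.afin, ?_⟩
  rintro d' hd'Q ⟨σ, hσ, hσd⟩
  obtain ⟨n1, n2, n3⟩ := h13 V G X
  -- independence from the basis
  obtain ⟨hSI1, -⟩ := h3 V G X Q a d s t κ l z c hFew hZS hWQ 1 (Fx G a).one_mem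
  obtain ⟨hSI2, σ', hσ', hσ'd⟩ := h3 V G X Q a d s t κ l z c hFew hZS hWQ σ hσ
  have er1 : (fun i => (1 : G) • d i) = d := by
    funext i
    exact one_smul G _
  have er2 : (fun i => σ • d i) = d' := by
    funext i
    exact hσd i
  rw [er1] at hSI1
  rw [er2] at hSI2
  have hσ'd' : ∀ i, σ' • d i = d' i := fun i => (hσ'd i).trans (hσd i)
  have haW : a ⊆ WW a z c := Set.subset_union_left
  have hWWQ : WW a z c ⊆ Q := by
    refine Set.union_subset hZS.aQ (Set.iUnion_subset fun i => ?_)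
    exact Set.union_subset (hWQ.inQ i).1 (hWQ.inQ i).2
  -- the models M1 and M1'
  obtain ⟨M1, hM1Q, hM1⟩ := h9 V G X (WW a z c ∪ Set.range d) Q hQ (Set.union_subset hWWQ hdQ)
  obtain ⟨M1', hM1Q', hM1'⟩ := h9 V G X (WW a z c ∪ Set.range d') Q hQ
    (Set.union_subset hWWQ hd'Q)
  have etr : tr σ' (WW a z c ∪ Set.range d) = WW a z c ∪ Set.range d' := by
    rw [zz_tr_union, tr_fx hσ', zz_tr_range σ' d d' hσ'd']
  obtain ⟨f, hf, hfM⟩ := h10 V G X (WW a z c ∪ Set.range d) M1 M1' σ' hM1 (by rwa [etr])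
  have hfW : f ∈ Fx G (WW a z c) := fun x hx => by
    rw [hf x (Or.inl hx)]
    exact hσ' x hx
  have hfa : f ∈ Fx G a := fx_anti haW hfW
  have hfd : ∀ i, f • d i = d' i := fun i => by
    rw [hf (d i) (Or.inr ⟨i, rfl⟩)]
    exact hσ'd' i
  have hWM1 : WW a z c ⊆ M1 := Set.subset_union_left.trans hM1.2.1
  -- the list of types
  obtain ⟨F0, Ξ, hΞ, q, hF0, hF0f, hLS, hq⟩ := h4 V G X Q a d s t κ l z c M1 hFew hZS hWQ hM1Q hM1
  have hqM : ∀ x, (q x).A ⊆ M1 := fun x =>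
    (hLS.en x).2.trans (Set.union_subset hM1.2.1 hF0)
  have hqSR : ∀ x, SR X (q x) := fun x => (hLS.en x).1.1
  have hbd : ∀ x, Bd X (q x) M1 := by
    intro x
    obtain ⟨F, hF, hFf, hqF, hOm⟩ := h8 V G X a d s t κ l z c M1 (q x) hWQ.toWS hSm hSI1 hM1
      (hLS.en x).1 (hqM x) (hLS.nt x)
    exact ⟨F, hFf, hF.trans (Set.union_subset hM1.2.1 (hqM x)), hOm⟩
  have htrQ : tr f M1 ⊆ Q := by
    rw [hfM]
    exact hM1Q'
  have hdm : ∀ x k, Dmn X (q x) M1 Q k ↔ Dmn X (mv f (q x)) (tr f M1) Q k := fun x k =>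
    h5 V G X Q a (WW a z c) M1 (q x) f k hQ hZS.afin haW hWM1 hM1Q hM1.1 htrQ hfW
      (hLS.en x).1 (hqM x) (hbd x) (hq x)
  obtain ⟨κ', hκ', ξ, b, b', h, hBS, hBS', hhM, hhb⟩ := h6 V G X Q M1 f Ξ q hQ hM1.1 hM1Q htrQ
    (fun x => ⟨hqSR x, hqM x⟩) hLS.no hdm
  have hA1 := h7 V G X Q a d s t κ l z c M1 F0 Ξ q κ' ξ b hQ hWQ hSm hSI1 hM1Q hM1 hF0 hF0f
    hLS hBS
  -- the second side
  have hSm' : Small G d' := zz_small hSm ⟨σ, fun x hx => absurd hx (Set.notMem_empty x), hσd⟩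
  obtain ⟨v1, -, v3, v4, -, -, -, -, -, v10, -, v12⟩ := h11 V G X f
  obtain ⟨-, -, w3, w4, -, -, -, -, -, -, -, -⟩ := h11 V G X f⁻¹
  have hback : ∀ p r : Ty V, NO X (mv f p) (mv f r) → NO X p r := by
    intro p r hpr
    have e := w4 _ _ hpr
    rwa [v1 p, v1 r] at e
  have htSR : ∀ j, SR X (t j) := fun j => (hZS.t1 j).1
  have htf : ∀ j, NO X (mv f (t j)) (t j) := fun j =>
    (v12 (t j) (htSR j) (fx_anti (hZS.t1 j).2.1 hfa)).2.2.2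
  have hqf : ∀ x, NO X (mv f (q x)) (q x) := by
    intro x
    rcases hq x with hx | hx
    · exact (v12 (q x) (hqSR x) (fx_anti hx hfW)).2.2.2
    · exact hx.2 f hfa
  have hmqSR : ∀ x, SR X (mv f (q x)) := fun x => v3 _ (hqSR x)
  have hmtSR : ∀ x, SR X (mv f (t x)) := fun x => v3 _ (htSR x)
  have hLS' : LS X Q (WW a z c ∪ Set.range d') M1' (tr f F0) t (fun x => mv f (q x)) := by
    refine ⟨fun x => ⟨v10 _ (hLS.en x).1, ?_⟩, ?_, ?_, ?_⟩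
    · have e := tr_mono f (hLS.en x).2
      rw [zz_tr_union, zz_tr_union, tr_fx hfW, zz_tr_range f d d' hfd] at e
      exact e
    · intro x y hxy hno
      exact hLS.no x y hxy (hback _ _ hno)
    · intro x j hno
      refine hLS.nt x j (hback _ _ ?_)
      exact n3 _ _ _ (hmqSR x) (htSR j) (hmtSR j) hno (n2 _ _ (htf j))
    · intro r hr hrQ
      rcases hLS.full r hr hrQ with ⟨x, hx⟩ | hj
      · exact Or.inl ⟨x, n3 _ _ _ hr.1 (hqSR x) (hmqSR x) hx (n2 _ _ (hqf x))⟩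
      · exact Or.inr hj
  rw [hfM] at hBS'
  have hF0' : tr f F0 ⊆ M1' := by
    rw [← hfM]
    exact tr_mono f hF0
  have hA2 := h7 V G X Q a d' s t κ l z c M1' (tr f F0) Ξ (fun x => mv f (q x)) κ' ξ b' hQ hWQ
    hSm' hSI2 hM1Q' hM1' hF0' (tr_finite f hF0f) hLS' hBS'
  -- the final step
  have etr2 : tr h (WW a z c ∪ Set.range d ∪ F0 ∪ ⋃ k, Set.range (b k)) =
      WW a z c ∪ Set.range d' ∪ tr f F0 ∪ ⋃ k, Set.range (b' k) := by
    rw [zz_tr_union, zz_tr_congr (g := f) (h := h) (A := WW a z c ∪ Set.range d ∪ F0)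
      (fun x hx => hhM x ((Set.union_subset hM1.2.1 hF0) hx)), zz_tr_union, zz_tr_union,
      tr_fx hfW, zz_tr_range f d d' hfd, tr_iUnion]
    congr 1
    refine Set.iUnion_congr fun k => ?_
    rw [tr_range, hhb k]
  obtain ⟨ρ, hρ, hρQ⟩ := h10 V G X _ Q Q h hA1 (by rwa [etr2])
  refine ⟨ρ, fun x hx => ?_, hρQ, fun i => ?_⟩
  · rw [hρ x (Or.inl (Or.inl (Or.inl (haW hx)))), hhM x (hWM1 (haW hx))]
    exact hfa x hx
  · rw [hρ (d i) (Or.inl (Or.inl (Or.inr ⟨i, rfl⟩))),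
      hhM (d i) (hM1.2.1 (Or.inr ⟨i, rfl⟩))]
    exact hfd i

end Pool.Agent.Helper90.MZ
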